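import Pool.Agent.Lib.MP_a688ad_al.T3.Asm
import Pool.Agent.Lib.MP_a688ad_al.T3.RgB
import Pool.Agent.Lib.MP_a688ad_al.T3.Brk
import Pool.Agent.Lib.MP_a688ad_al.T3.Cmb
import Pool.Agent.Lib.MP_a688ad_al.T3.Cts
import Pool.Agent.Lib.MP_a688ad_al.T3.Dk
import Pool.Agent.Lib.MP_a688ad_al.T3.Ef0
import Pool.Agent.Lib.MP_a688ad_al.T3.El
import Pool.Agent.Lib.MP_a688ad_al.T3.EvE
import Pool.Agent.Lib.MP_a688ad_al.T3.Evp
import Pool.Agent.Lib.MP_a688ad_al.T3.Fr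
import Pool.Agent.Lib.MP_a688ad_al.T3.GE
import Pool.Agent.Lib.MP_a688ad_al.T3.GZ
import Pool.Agent.Lib.MP_a688ad_al.T3.Gen
import Pool.Agent.Lib.MP_a688ad_al.T3.Gg
import Pool.Agent.Lib.MP_a688ad_al.T3.Ha
import Pool.Agent.Lib.MP_a688ad_al.T3.HaE
import Pool.Agent.Lib.MP_a688ad_al.T3.HfA
import Pool.Agent.Lib.MP_a688ad_al.T3.HfB
import Pool.Agent.Lib.MP_a688ad_al.T3.Ilc
import Pool.Agent.Lib.MP_a688ad_al.T3.Iv
import Pool.Agent.Lib.MP_a688ad_al.T3.LI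
import Pool.Agent.Lib.MP_a688ad_al.T3.LMt
import Pool.Agent.Lib.MP_a688ad_al.T3.Lft
import Pool.Agent.Lib.MP_a688ad_al.T3.Loc
import Pool.Agent.Lib.MP_a688ad_al.T3.Loc0
import Pool.Agent.Lib.MP_a688ad_al.T3.Low
import Pool.Agent.Lib.MP_a688ad_al.T3.MSa
import Pool.Agent.Lib.MP_a688ad_al.T3.MSb
import Pool.Agent.Lib.MP_a688ad_al.T3.MSc
import Pool.Agent.Lib.MP_a688ad_al.T3.Pai
import Pool.Agent.Lib.MP_a688ad_al.T3.Plz
import Pool.Agent.Lib.MP_a688ad_al.T3.PsiI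
import Pool.Agent.Lib.MP_a688ad_al.T3.PsiS
import Pool.Agent.Lib.MP_a688ad_al.T3.Rad
import Pool.Agent.Lib.MP_a688ad_al.T3.Rb
import Pool.Agent.Lib.MP_a688ad_al.T3.Reg
import Pool.Agent.Lib.MP_a688ad_al.T3.Rk1
import Pool.Agent.Lib.MP_a688ad_al.T3.Rsc
import Pool.Agent.Lib.MP_a688ad_al.T3.SaA
import Pool.Agent.Lib.MP_a688ad_al.T3.SaB
import Pool.Agent.Lib.MP_a688ad_al.T3.Siz
import Pool.Agent.Lib.MP_a688ad_al.T3.Str
import Pool.Agent.Lib.MP_a688ad_al.T3.Tht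
import Pool.Agent.Lib.MP_a688ad_al.T3.Var
import Pool.Agent.Lib.MP_a688ad_al.T3.Vcs
import Pool.Agent.Lib.MP_a688ad_al.T3.Vdm
import Pool.Agent.Lib.MP_a688ad_al.T3.Yb
import Pool.Agent.Lib.MP_a688ad_al.T3.Yy
import Pool.Agent.Lib.MP_a688ad_al.T3.Zj
import Pool.Agent.Lib.MP_a688ad_al.T3.Upp
import Pool.Agent.Lib.MP_a688ad_al.T3.Br
import Pool.Agent.Lib.MP_a688ad_al.T3.Wp
import Pool.Agent.Lib.MP_a688ad_al.T3.Im

/-!
# The forest analogue of Foulkes' plethysm inequality for all large `n`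
-/

set_option autoImplicit false

open Finset Pool.Agent.Lib.MP_a688ad_al Pool.Agent.Lib.MP_a688ad_al.T2
  Pool.Agent.Lib.MP_a688ad_al.T3

namespace Pool.Agent.Results.MP_a688ad_al.AllLargeN

/-- For every `m ≥ 3` there is `N` such that for all `n ≥ N` and every partition `lam` of `n m` which
has at least three nonzero parts or first part `< n (m - 1)`, the coefficient of `s_lam` in
`h_n[h_1 h_{m-1}]` is at least the coefficient of `s_lam` in `h_m[h_1 h_{n-1}]`.  Here `r + 1` is any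
number of variables that `lam` fits in. -/
theorem result (m : ℕ) (hm : 3 ≤ m) : ∃ N : ℕ, ∀ n ≥ N, ∀ (r : ℕ) (lam : Fin (r + 1) → ℕ),
    Antitone lam → ∑ i, lam i = n * m →
    (3 ≤ (univ.filter (fun i => lam i ≠ 0)).card ∨ lam 0 < n * (m - 1)) →
    schurCoeff (pleth (r + 1) m n) lam ≤ schurCoeff (pleth (r + 1) n m) lam := by
  -- upper bound
  have hStr := kStr kGZ
  have hLMt := kLMt hStr
  have hUpp := kUpp hLMt kIlc kPlz
  have hCmb := kCmb hUpp kDk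
  -- symmetric functions
  have hRad := kRad kEl
  have hGen := kGen kEl hRad
  have hMSb := kMSb kMSa
  have hLoc0 := kLoc0 kEl hMSb
  have hLoc := kLoc kEl hLoc0
  have hBr := kBr kEl hGen hLoc
  -- explicit invariants
  have hCts := kCts kGg
  have hEvp := kEvp kGg
  have hRk1 := kRk1 hEvp
  have hHa := kHa kVcs hCts kRsc kIv
  have hHaE := kHaE hEvp hRk1 kPai
  have hRb := kRb kBrk kRsc hEvp kPai kIv
  have hHfA := kHfA hHa hHaE hRb
  have hHfB := kHfB kVcs hCts kRsc hEvp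
  have hTht := kTht hHfA hHfB
  have hZj := kZj kBrk kRsc hEvp kPai
  have hSaA := kSaA kBrk hEvp kPai
  have hSaB := kSaB kVcs hCts kBrk hEvp
  have hWp := kWp kBrk kVcs hCts hEvp kPai
  have hYb := kYb hWp hSaA hSaB kSiz
  have hYy := kYy hYb hZj
  -- lower bound
  have hEvE := kEvE kEl kGg
  have hLft := kLft hEvE kGE
  have hFr := kFr hLft
  have hIm := kIm hBr hEvE
  have hMSc := kMSc kBrk
  have hVdm := kVdm kRsc
  have hPsiS := kPsiS kRsc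
  have hPsiI := kPsiI kRsc hPsiS hVdm
  have hLow := kLow hTht hZj hYy kSiz hIm hFr kLI hMSc kEf0 hPsiS hPsiI
  exact kAsm hUpp (kRgB hUpp hCmb kReg hLow) kVar m hm

end Pool.Agent.Results.MP_a688ad_al.AllLargeN
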