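import Pool.Agent.Lib.MP_a688ad_al.Fin

/-!
# The case `m = 3` of the forest analogue of Foulkes' plethysm inequality
-/

set_option autoImplicit false

open Finset Pool.Agent.Lib.MP_a688ad_al

namespace Pool.Agent.Results.MP_a688ad_al.CaseThree

/-- For every `n > 3` and every partition `lam` of `3 n` with at least three nonzero parts, the
coefficient of `s_lam` in `h_n[h_1 h_2]` is at least the coefficient of `s_lam` in
`h_3[h_1 h_{n-1}]`. Here `r` is any number of variables that `lam` fits in. -/
theorem result (n : ℕ) (hn : 3 < n) (r : ℕ) (lam : Fin r → ℕ) (hl : Antitone lam)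
    (hs : ∑ i, lam i = n * 3) (h3 : 3 ≤ (univ.filter (fun i => lam i ≠ 0)).card) :
    schurCoeff (pleth r 3 n) lam ≤ schurCoeff (pleth r n 3) lam := by
  classical
  let mu : ℕ → ℕ := fun j => if h : j < r then lam ⟨j, h⟩ else 0
  have e : lam = fun i : Fin r => mu i := by
    ext i
    simp only [mu, i.2, dif_pos]
  have hr : ∀ i, r ≤ i → mu i = 0 := fun i hi => by
    simp only [mu]
    rw [dif_neg (by omega)]
  have hdec : ∀ i, mu (i + 1) ≤ mu i := by
    intro i
    by_cases h : i + 1 < r
    · simp only [mu]
      rw [dif_pos h, dif_pos (by omega)]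
      exact hl (by
        rw [Fin.le_def]
        show i ≤ i + 1
        omega)
    · rw [hr (i + 1) (by omega)]
      exact Nat.zero_le _
  have hanti : Antitone mu := antitone_nat_of_succ_le hdec
  have h2 : mu 2 ≠ 0 := by
    intro h0
    have hsub : univ.filter (fun i : Fin r => lam i ≠ 0) ⊆ univ.filter (fun i : Fin r => (i : ℕ) < 2) := by
      intro i hi
      rw [Finset.mem_filter] at hi ⊢
      refine ⟨mem_univ _, ?_⟩
      by_contra hge
      push Not at hge
      apply hi.2
      have h4 := hanti hge
      rw [e]
      simp only
      omega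
    have h5 := Finset.card_le_card hsub
    have h6 : (univ.filter (fun i : Fin r => (i : ℕ) < 2)).card ≤ 2 := by
      have h7 : ((univ.filter (fun i : Fin r => (i : ℕ) < 2)).image (fun i : Fin r => (i : ℕ)))
          ⊆ Finset.range 2 := by
        intro j hj
        rw [Finset.mem_image] at hj
        obtain ⟨i, hi, rfl⟩ := hj
        rw [Finset.mem_filter] at hi
        exact Finset.mem_range.2 hi.2
      have h8 := Finset.card_le_card h7
      rw [Finset.card_image_of_injective _ Fin.val_injective, Finset.card_range] at h8
      exact h8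
    omega
  rw [e] at hs ⊢
  exact all_vars hn hdec hr (by rw [hs]; ring) h2

end Pool.Agent.Results.MP_a688ad_al.CaseThree
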