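import Pool.Agent.Lib.MP_a688ad_al.T2.All
import Pool.Agent.Lib.MP_a688ad_al.T4.Main

/-!
# The forest analogue of Foulkes' plethysm inequality for a short second row and for a long first row
-/

set_option autoImplicit false

open Finset Pool.Agent.Lib.MP_a688ad_al Pool.Agent.Lib.MP_a688ad_al.T2
  Pool.Agent.Lib.MP_a688ad_al.T4

namespace Pool.Agent.Results.MP_a688ad_al.TwoRanges

/-- For all `n > m ≥ 3` and every partition `lam` of `n m` such that `lam_2 ≤ m - 1`, or such that
`lam_3 ≥ 1` and `n m - lam_1 + lam_2 + lam_3 ≤ 2 n + 1`, the coefficient of `s_lam` in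
`h_n[h_1 h_{m-1}]` is at least the coefficient of `s_lam` in `h_m[h_1 h_{n-1}]`.  Here `lam 0`, `lam 1`,
`lam 2` are the first three parts `lam_1`, `lam_2`, `lam_3` and `r + 3` is any number of variables that
`lam` fits in. -/
theorem result (m n : ℕ) (hm : 3 ≤ m) (hmn : m < n) (r : ℕ) (lam : Fin (r + 3) → ℕ)
    (hl : Antitone lam) (hs : ∑ i, lam i = n * m)
    (h : lam 1 < m ∨ lam 2 ≠ 0 ∧ n * m + lam 1 + lam 2 ≤ lam 0 + (2 * n + 1)) :
    schurCoeff (pleth (r + 3) m n) lam ≤ schurCoeff (pleth (r + 3) n m) lam :=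
  main kAll m n hm hmn r lam hl hs h

end Pool.Agent.Results.MP_a688ad_al.TwoRanges
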